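import Pool.Agent.Lib.CookLevin.Tableau

/-!
# Mathlib's multi-stack machines as machines with small steps
-/

namespace Pool.Agent.CookLevin

open Function Turing

variable (tm : FinTM2)

/-- The statements which occur in the program. -/
def stm : Set (TM2.Stmt tm.Γ tm.Λ tm.σ) := {s | ∃ l, s ∈ TM2.stmts₁ (tm.m l)}

theorem finite_stm : (stm tm).Finite := by
  have := tm.ΛFin
  have h : stm tm = ⋃ l : tm.Λ, (↑(TM2.stmts₁ (tm.m l)) : Set _) := by
    ext s; simp [stm]
  rw [h]
  exact Set.finite_iUnion fun l => Finset.finite_toSet _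

variable {tm} in
theorem stm_trans {s s' : TM2.Stmt tm.Γ tm.Λ tm.σ} (h : s' ∈ TM2.stmts₁ s)
    (hs : s ∈ stm tm) : s' ∈ stm tm := by
  obtain ⟨l, hl⟩ := hs
  exact ⟨l, TM2.stmts₁_trans hl h⟩

/-- The symbol which a statement pushes. -/
def psym : TM2.Stmt tm.Γ tm.Λ tm.σ → tm.σ → Option (Σ k, tm.Γ k)
  | .push k f _, v => some ⟨k, f v⟩
  | _, _ => none

/-- The symbols which can occur on the stacks. -/
def sym : Set (Σ k, tm.Γ k) :=
  Set.range (Sigma.mk tm.k₀) ∪ {x | ∃ s ∈ stm tm, ∃ v, psym tm s v = some x}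

theorem finite_sym : (sym tm).Finite := by
  have := tm.Γk₀Fin
  have := tm.σFin
  refine Set.Finite.union (Set.finite_range _) ?_
  refine Set.Finite.of_finite_image (f := some) ?_ (Option.some_injective _).injOn
  have h1 := (finite_stm tm).to_subtype
  refine (Set.finite_range fun p : (stm tm) × tm.σ => psym tm p.1 p.2).subset ?_
  rintro _ ⟨x, ⟨s, hs, v, h⟩, rfl⟩
  exact ⟨(⟨s, hs⟩, v), h⟩

/-- The control states. -/
abbrev Qt : Type := (stm tm) × tm.σ

/-- The symbols. -/
abbrev Gt : Type := sym tm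

noncomputable instance : Fintype (stm tm) := (finite_stm tm).fintype
noncomputable instance : Fintype (sym tm) := (finite_sym tm).fintype
instance : Fintype tm.σ := tm.σFin
instance : Fintype tm.K := tm.kFin

/-- Read a symbol as a symbol of a given stack. -/
def cvt (k : tm.K) : Option (Gt tm) → Option (tm.Γ k)
  | none => none
  | some x => if h : x.val.1 = k then some (h ▸ x.val.2) else none

variable {tm} in
theorem cvt_head {k : tm.K} {l : List (tm.Γ k)} {l' : List (Gt tm)}
    (h : l'.map Subtype.val = l.map (Sigma.mk k)) : cvt tm k l'.head? = l.head? := by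
  cases l with
  | nil => simp only [List.map_nil, List.map_eq_nil_iff] at h; subst h; rfl
  | cons a l =>
    cases l' with
    | nil => simp at h
    | cons b l' =>
      simp only [List.map_cons, List.cons.injEq] at h
      obtain ⟨⟨kb, b⟩, hb⟩ := b
      simp only [Sigma.mk.injEq] at h
      obtain ⟨⟨rfl, h1⟩, -⟩ := h
      have h1 := eq_of_heq h1
      subst h1
      simp [cvt]

/-- The next statement. -/
def nxtS : TM2.Stmt tm.Γ tm.Λ tm.σ → tm.σ → TM2.Stmt tm.Γ tm.Λ tm.σ
  | .push _ _ q, _ => q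
  | .peek _ _ q, _ => q
  | .pop _ _ q, _ => q
  | .load _ q, _ => q
  | .branch p q₁ q₂, v => cond (p v) q₁ q₂
  | .goto f, v => tm.m (f v)
  | .halt, _ => .halt

theorem nxtS_mem {s : TM2.Stmt tm.Γ tm.Λ tm.σ} (hs : s ∈ stm tm) (v : tm.σ) :
    nxtS tm s v ∈ stm tm := by
  cases s with
  | push k f q => exact stm_trans (s' := q) (by simp [TM2.stmts₁, TM2.stmts₁_self]) hs
  | peek k f q => exact stm_trans (s' := q) (by simp [TM2.stmts₁, TM2.stmts₁_self]) hs
  | pop k f q => exact stm_trans (s' := q) (by simp [TM2.stmts₁, TM2.stmts₁_self]) hs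
  | load f q => exact stm_trans (s' := q) (by simp [TM2.stmts₁, TM2.stmts₁_self]) hs
  | branch p q₁ q₂ =>
    simp only [nxtS]
    cases p v
    · exact stm_trans (s' := q₂) (by simp [TM2.stmts₁, TM2.stmts₁_self]) hs
    · exact stm_trans (s' := q₁) (by simp [TM2.stmts₁, TM2.stmts₁_self]) hs
  | goto f => exact ⟨f v, TM2.stmts₁_self⟩
  | halt => exact hs

/-- The next internal state. -/
def nxtV : TM2.Stmt tm.Γ tm.Λ tm.σ → tm.σ → Option (Gt tm) → tm.σ
  | .peek k f _, v, o => f v (cvt tm k o)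
  | .pop k f _, v, o => f v (cvt tm k o)
  | .load a _, v, _ => a v
  | _, v, _ => v

/-- The stack which a statement uses. -/
def stkS : TM2.Stmt tm.Γ tm.Λ tm.σ → tm.K
  | .push k _ _ => k
  | .peek k _ _ => k
  | .pop k _ _ => k
  | _ => tm.k₀

/-- The action of a statement. -/
def actS : (s : TM2.Stmt tm.Γ tm.Λ tm.σ) → s ∈ stm tm → tm.σ → Option (Option (Gt tm))
  | .push k f q, hs, v => some (some ⟨⟨k, f v⟩, .inr ⟨.push k f q, hs, v, rfl⟩⟩)
  | .pop _ _ _, _, _ => some none
  | _, _, _ => none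

/-- The machine with small steps. -/
def mach : Mach (Qt tm) tm.K (Gt tm) where
  stk q := stkS tm q.1.val
  nxt q o := (⟨nxtS tm q.1.val q.2, nxtS_mem tm q.1.2 q.2⟩, nxtV tm q.1.val q.2 o)
  act q _ := actS tm q.1.val q.1.2 q.2

/-- The stacks of the machine with small steps correspond to those of the given machine. -/
def RelS (S : ∀ k, List (tm.Γ k)) (S' : tm.K → List (Gt tm)) : Prop :=
  ∀ k, (S' k).map Subtype.val = (S k).map (Sigma.mk k)

/-- The statement for a label. -/
def stOf : Option tm.Λ → TM2.Stmt tm.Γ tm.Λ tm.σ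
  | some l => tm.m l
  | none => .halt

/-- The configurations correspond. -/
def Rel (c : tm.Cfg) (d : Qt tm × (tm.K → List (Gt tm))) : Prop :=
  d.1.1.val = stOf tm c.l ∧ d.1.2 = c.var ∧ RelS tm c.stk d.2

/-- The number of small steps of a statement. -/
def dep : TM2.Stmt tm.Γ tm.Λ tm.σ → ℕ
  | .push _ _ q => dep q + 1
  | .peek _ _ q => dep q + 1
  | .pop _ _ q => dep q + 1
  | .load _ q => dep q + 1
  | .branch _ q₁ q₂ => dep q₁ + dep q₂ + 1
  | .goto _ => 1
  | .halt => 0

theorem run_add {Q K G : Type} [DecidableEq K] (M : Mach Q K G) (c : Q × (K → List G))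
    (m n : ℕ) : M.run c (m + n) = M.run (M.run c m) n := by
  induction n with
  | zero => rfl
  | succ n ih => rw [← Nat.add_assoc]; simp only [Mach.run, ih]

theorem run_succ' {Q K G : Type} [DecidableEq K] (M : Mach Q K G) (c : Q × (K → List G))
    (n : ℕ) : M.run c (n + 1) = M.run (M.step c) n := by
  rw [Nat.add_comm, run_add]; rfl

variable {tm}

theorem relS_update {S : ∀ k, List (tm.Γ k)} {S' : tm.K → List (Gt tm)} (h : RelS tm S S')
    (k : tm.K) {l : List (tm.Γ k)} {l' : List (Gt tm)}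
    (hl : l'.map Subtype.val = l.map (Sigma.mk k)) :
    RelS tm (update S k l) (update S' k l') := by
  intro k'
  by_cases hk : k' = k
  · subst hk; rw [update_self, update_self]; exact hl
  · rw [update_of_ne hk, update_of_ne hk]; exact h k'

theorem sim_stmt (s : TM2.Stmt tm.Γ tm.Λ tm.σ) : ∀ (v : tm.σ)
    (S : ∀ k, List (tm.Γ k)) (d : Qt tm × (tm.K → List (Gt tm))),
    d.1.1.val = s → d.1.2 = v → RelS tm S d.2 →
    ∃ n ≤ dep tm s, Rel tm (TM2.stepAux s v S) ((mach tm).run d n) := by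
  induction s with
  | push k f q ih =>
    rintro v S ⟨⟨⟨s, hs⟩, v'⟩, S'⟩ h1 h2 h3
    dsimp only at h1 h2 h3
    subst h1 h2
    have hst : (mach tm).step ((⟨.push k f q, hs⟩, v'), S') =
        ((⟨q, nxtS_mem tm hs v'⟩, v'), update S' k (⟨⟨k, f v'⟩,
          .inr ⟨.push k f q, hs, v', rfl⟩⟩ :: S' k)) := rfl
    obtain ⟨n, hn, h4⟩ := ih v' (update S k (f v' :: S k))
      ((mach tm).step ((⟨.push k f q, hs⟩, v'), S')) rfl rfl (by
        rw [hst]
        exact relS_update h3 k (by simp [h3 k]))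
    exact ⟨n + 1, by simp only [dep]; omega, by rw [run_succ']; exact h4⟩
  | peek k f q ih =>
    rintro v S ⟨⟨⟨s, hs⟩, v'⟩, S'⟩ h1 h2 h3
    dsimp only at h1 h2 h3
    subst h1 h2
    have hst : (mach tm).step ((⟨.peek k f q, hs⟩, v'), S') =
        ((⟨q, nxtS_mem tm hs v'⟩, f v' (cvt tm k (S' k).head?)), update S' k (S' k)) := rfl
    obtain ⟨n, hn, h4⟩ := ih (f v' (S k).head?) S
      ((mach tm).step ((⟨.peek k f q, hs⟩, v'), S')) rfl (by
        rw [hst, cvt_head (h3 k)]) (by
        rw [hst, update_eq_self]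
        exact h3)
    exact ⟨n + 1, by simp only [dep]; omega, by rw [run_succ']; exact h4⟩
  | pop k f q ih =>
    rintro v S ⟨⟨⟨s, hs⟩, v'⟩, S'⟩ h1 h2 h3
    dsimp only at h1 h2 h3
    subst h1 h2
    have hst : (mach tm).step ((⟨.pop k f q, hs⟩, v'), S') =
        ((⟨q, nxtS_mem tm hs v'⟩, f v' (cvt tm k (S' k).head?)), update S' k (S' k).tail) :=
      rfl
    obtain ⟨n, hn, h4⟩ := ih (f v' (S k).head?) (update S k (S k).tail)
      ((mach tm).step ((⟨.pop k f q, hs⟩, v'), S')) rfl (by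
        rw [hst, cvt_head (h3 k)]) (by
        rw [hst]
        exact relS_update h3 k (by rw [List.map_tail, h3 k, List.map_tail]))
    exact ⟨n + 1, by simp only [dep]; omega, by rw [run_succ']; exact h4⟩
  | load f q ih =>
    rintro v S ⟨⟨⟨s, hs⟩, v'⟩, S'⟩ h1 h2 h3
    dsimp only at h1 h2 h3
    subst h1 h2
    have hst : (mach tm).step ((⟨.load f q, hs⟩, v'), S') =
        ((⟨q, nxtS_mem tm hs v'⟩, f v'), update S' tm.k₀ (S' tm.k₀)) := rfl
    obtain ⟨n, hn, h4⟩ := ih (f v') S
      ((mach tm).step ((⟨.load f q, hs⟩, v'), S')) rfl (by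
        rw [hst]) (by
        rw [hst, update_eq_self]
        exact h3)
    exact ⟨n + 1, by simp only [dep]; omega, by rw [run_succ']; exact h4⟩
  | branch p q₁ q₂ ih₁ ih₂ =>
    rintro v S ⟨⟨⟨s, hs⟩, v'⟩, S'⟩ h1 h2 h3
    dsimp only at h1 h2 h3
    subst h1 h2
    have hst : (mach tm).step ((⟨.branch p q₁ q₂, hs⟩, v'), S') =
        ((⟨cond (p v') q₁ q₂, nxtS_mem tm hs v'⟩, v'), update S' tm.k₀ (S' tm.k₀)) := rfl
    rcases hp : p v' with _ | _
    · obtain ⟨n, hn, h4⟩ := ih₂ v' S
        ((mach tm).step ((⟨.branch p q₁ q₂, hs⟩, v'), S')) (by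
          show cond (p v') q₁ q₂ = _
          rw [hp]; rfl) rfl (by
          rw [hst, update_eq_self]
          exact h3)
      refine ⟨n + 1, by simp only [dep]; omega, ?_⟩
      rw [run_succ', TM2.stepAux, hp]; exact h4
    · obtain ⟨n, hn, h4⟩ := ih₁ v' S
        ((mach tm).step ((⟨.branch p q₁ q₂, hs⟩, v'), S')) (by
          show cond (p v') q₁ q₂ = _
          rw [hp]; rfl) rfl (by
          rw [hst, update_eq_self]
          exact h3)
      refine ⟨n + 1, by simp only [dep]; omega, ?_⟩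
      rw [run_succ', TM2.stepAux, hp]; exact h4
  | goto f =>
    rintro v S ⟨⟨⟨s, hs⟩, v'⟩, S'⟩ h1 h2 h3
    dsimp only at h1 h2 h3
    subst h1 h2
    refine ⟨1, le_rfl, rfl, rfl, ?_⟩
    show RelS tm S (update S' tm.k₀ (S' tm.k₀))
    rw [update_eq_self]
    exact h3
  | halt =>
    rintro v S ⟨⟨⟨s, hs⟩, v'⟩, S'⟩ h1 h2 h3
    dsimp only at h1 h2 h3
    subst h1 h2
    exact ⟨0, le_rfl, rfl, rfl, h3⟩

variable (tm) in
/-- A bound for the number of small steps of one step. -/
noncomputable def cost : ℕ :=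
  letI := tm.ΛFin
  ∑ l : tm.Λ, dep tm (tm.m l)

theorem dep_le_cost (l : tm.Λ) : dep tm (tm.m l) ≤ cost tm := by
  letI := tm.ΛFin
  exact Finset.single_le_sum (f := fun l => dep tm (tm.m l)) (fun _ _ => Nat.zero_le _)
    (Finset.mem_univ l)

theorem sim_iter (T : ℕ) : ∀ (c c' : tm.Cfg) (d : Qt tm × (tm.K → List (Gt tm))),
    (flip bind tm.step)^[T] (some c) = some c' → Rel tm c d →
    ∃ n ≤ cost tm * T, Rel tm c' ((mach tm).run d n) := by
  induction T with
  | zero =>
    intro c c' d h hr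
    rw [iterate_zero, id, Option.some_inj] at h
    subst h
    exact ⟨0, le_rfl, hr⟩
  | succ T ih =>
    intro c c' d h hr
    rw [iterate_succ_apply] at h
    obtain ⟨l, v, S⟩ := c
    cases l with
    | none =>
      exfalso
      have hn : ∀ T, (flip bind tm.step)^[T] (none : Option tm.Cfg) = none := by
        intro T
        induction T with
        | zero => rfl
        | succ T ih => rw [iterate_succ_apply]; exact ih
      have h1 : flip bind tm.step (some (⟨none, v, S⟩ : tm.Cfg)) = none := rfl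
      rw [h1, hn] at h
      exact absurd h (by simp)
    | some l =>
      have h1 : flip bind tm.step (some (⟨some l, v, S⟩ : tm.Cfg)) =
        some (TM2.stepAux (tm.m l) v S) := rfl
      rw [h1] at h
      obtain ⟨n, hn, h2⟩ := sim_stmt (tm.m l) v S d hr.1 hr.2.1 hr.2.2
      obtain ⟨n', hn', h3⟩ := ih _ c' _ h h2
      refine ⟨n + n', ?_, by rw [run_add]; exact h3⟩
      have := dep_le_cost l
      rw [Nat.mul_succ]
      omega

theorem run_halt {d : Qt tm × (tm.K → List (Gt tm))} (h : d.1.1.val = .halt) (n : ℕ) :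
    (mach tm).run d n = d := by
  induction n with
  | zero => rfl
  | succ n ih =>
    simp only [Mach.run, ih]
    obtain ⟨⟨⟨s, hs⟩, v⟩, S⟩ := d
    dsimp only at h
    subst h
    have : (mach tm).step ((⟨.halt, hs⟩, v), S) =
      ((⟨.halt, hs⟩, v), update S tm.k₀ (S tm.k₀)) := rfl
    rw [this, update_eq_self]

variable (tm) in
/-- The start state. -/
def q0 : Qt tm := (⟨tm.m tm.main, tm.main, TM2.stmts₁_self⟩, tm.initialState)

variable (tm) in
/-- A symbol of the input stack. -/
def inSym (g : tm.Γ tm.k₀) : Gt tm := ⟨⟨tm.k₀, g⟩, .inl ⟨g, rfl⟩⟩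

/-- The output of the run of the machine with small steps. -/
theorem output {l : List (tm.Γ tm.k₀)} {l' : List (tm.Γ tm.k₁)} {m N : ℕ}
    (h : TM2OutputsInTime tm l (some l') m) (hN : cost tm * m ≤ N) :
    (((mach tm).run (q0 tm, fun k => if k = tm.k₀ then l.map (inSym tm) else []) N).2
      tm.k₁).map Subtype.val = l'.map (Sigma.mk tm.k₁) := by
  have h0 : Rel tm (initList tm l)
      (q0 tm, fun k => if k = tm.k₀ then l.map (inSym tm) else []) := by
    refine ⟨rfl, rfl, fun k => ?_⟩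
    by_cases hk : k = tm.k₀
    · subst hk
      simp only [initList, if_true, dite_true, List.map_map]
      rfl
    · simp [initList, hk]
  obtain ⟨n, hn, hr⟩ := sim_iter h.steps (initList tm l) (haltList tm l') _
    h.evals_in_steps h0
  have h1 := h.steps_le_m
  have h2 : n ≤ N := hn.trans ((Nat.mul_le_mul_left _ h1).trans hN)
  obtain ⟨e, rfl⟩ := Nat.exists_eq_add_of_le h2
  rw [run_add, run_halt hr.1]
  have h3 := hr.2.2 tm.k₁
  rw [h3]
  simp [haltList]

end Pool.Agent.CookLevin
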