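import Pool.Agent.Lib.CookLevin.Main
import Pool.Agent.Lib.PolyTime.Raw

/-!
# NP-hardness

`NPHard Yes` says that every language in NP reduces in polynomial time, in the sense of
Mathlib's `Turing.TM2ComputableInPolyTime`, to the problem `Yes` on the type `β`.
-/

namespace Pool.Agent.CookLevin

open Function Turing Pool.Agent.PolyTime Pool.Agent.PathSys Polynomial

/-- Read the bits of an input in which each bit is written with three bits. -/
def inp3 : P := .loop .inp (fun _ => false) fun _ => .popCase .inp fun r =>
  .popCase .inp fun _ => .push .aux (some (r.getD false))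

theorem run_inp3 (w : List Bool) : ∀ (e : List (Option Bool)),
    Run inp3 (st (bits3 w) [] [] e [] []) (st [] [] [] (w.reverse.map some ++ e) [] [])
      (4 * w.length + 1) := by
  induction w with
  | nil =>
    intro e
    obtain ⟨m, hm, h⟩ := Exists.intro (p := fun m => m ≤ 1 ∧ Exec inp3
      (st [] [] [] e [] []) (st [] [] [] e [] []) m) 1 ⟨le_rfl, Exec.loop_nil rfl⟩
    exact ⟨m, hm, h⟩
  | cons b w ih =>
    intro e
    have h := ih (some b :: e)
    refine Run.mono (b := 3 + (4 * w.length + 1) + 1) ?_ (by simp; omega)
    simp only [List.reverse_cons, List.map_append, List.map_cons, List.map_nil,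
      List.append_assoc, List.cons_append, List.nil_append]
    refine Run.loop_step (k := .inp)
      (s1 := st (b :: false :: bits3 w) [] [] e [] [])
      (s' := st (bits3 w) [] [] (some b :: e) [] [])
      (a := true) rfl rfl (by rw [update_inp]; rfl) ?_ h
    refine Run.mono (b := (1 + 1) + 1) ?_ (by omega)
    refine Run.popCase ?_
    refine Run.popCase ?_
    refine Run.push ?_
    simp

theorem inFmt_bits3 : InFmt bits3 := by
  refine ⟨.seq (.push .aux none) (.seq inp3 (.seq (.push .dat (some false)) buildBits)),
    9 * X + 4, fun w => ?_⟩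
  have r1 : Run (.push .aux none) (st (bits3 w) [] [] [] [] [])
    (st (bits3 w) [] [] [none] [] []) 1 := Run.push (by simp)
  have r2 := run_inp3 w [none]
  have r3 : Run (.push .dat (some false)) (st [] [] [] (w.reverse.map some ++ [none]) [] [])
    (st [] [] (tenc (toT ([] : List Bool))) (w.reverse.map some ++ [none]) [] []) 1 :=
    Run.push (by simp)
  have r4 := run_buildBits w []
  rw [List.append_nil] at r4
  refine (Run.seq r1 (Run.seq r2 (Run.seq r3 r4))).mono ?_
  have h := length_bits3 w
  simp only [eval_add, eval_mul, eval_X, eval_ofNat]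
  omega

theorem inFmt_bitEncode : InFmt (N487b59b3.bitEncode (α := List Bool)) := by
  have h : (N487b59b3.bitEncode (α := List Bool)) = bits3 := funext bitEncode_list
  rw [h]
  exact inFmt_bits3

/-- The problem `Yes` is NP-hard: every language in NP reduces to it by a function which is
computable in polynomial time. -/
def NPHard {β : Type} [PolyTime.Rep β] (Yes : β → Prop) : Prop :=
  ∀ L ∈ N68a2faeb.NP, ∃ f : List Bool → β,
    Nonempty (TM2ComputableInPolyTime (N487b59b3.bitEncode (α := List Bool))
      (encode (α := β)) f) ∧ ∀ x, L x = true ↔ Yes (f x)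

/-- A problem to which 3SAT reduces is NP-hard. -/
theorem NPHard.of_sat3 {β : Type} [PolyTime.Rep β] {Yes : β → Prop} {r : CNF3 → β}
    (hr : PT r) (h : ∀ φ, Sat3 φ ↔ Yes (r φ)) : NPHard Yes := by
  intro L hL
  obtain ⟨f, hf, hL⟩ := cookLevin hL
  exact ⟨fun x => r (f x), PT.tm2Fmt inFmt_bitEncode outFmt_encode (PT.comp (g := r) hr hf),
    fun x => (hL x).trans (h _)⟩

/-- 3SAT is NP-hard. -/
theorem npHard_sat3 : NPHard Sat3 := NPHard.of_sat3 PT.id fun _ => Iff.rfl

end Pool.Agent.CookLevin
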