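import Pool.Agent.Lib.CookLevin.TableauPT
import Pool.Agent.Lib.CookLevin.FromTM2
import Pool.Prelude.Def_H_3587d628

/-!
# The Cook-Levin theorem

Every language in NP (defined with Mathlib's polynomial-time multi-stack machines) reduces to
3SAT by a polynomial-time computable function.
-/

namespace Pool.Agent.CookLevin

open Function Turing Pool.Agent.PolyTime Pool.Agent.PathSys Polynomial

/-! ### The encoding of a pair of bit strings -/

/-- Three bits for each bit. -/
def bits3 (x : List Bool) : List Bool := x.flatMap fun b => [true, b, false]

theorem bitEncode_list (x : List Bool) : N487b59b3.bitEncode x = bits3 x := by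
  show ((x.map N487b59b3.bitEncode).map N487b59b3.delimit).flatten = bits3 x
  induction x with
  | nil => rfl
  | cons b x ih =>
    simp only [List.map_cons, List.flatten_cons, ih, bits3, List.flatMap_cons]
    rfl

theorem delimit_eq (x : List Bool) :
    N487b59b3.delimit x = (x.flatMap fun b => [true, b]) ++ [false] := by
  induction x with
  | nil => rfl
  | cons b x ih => simp [N487b59b3.delimit, ih]

theorem length_bits3 (x : List Bool) : (bits3 x).length = 3 * x.length := by
  induction x with
  | nil => rfl
  | cons b x ih =>
    simp only [bits3, List.flatMap_cons, List.length_append] at ih ⊢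
    rw [ih]; simp; ring

/-- The encoding of a pair of bit strings. -/
def encPair (x w : List Bool) : List Bool := N487b59b3.delimit (bits3 x) ++ bits3 w

theorem bitEncode_pair (x w : List Bool) :
    N487b59b3.bitEncode (x, w) = encPair x w := by
  show N487b59b3.delimit (N487b59b3.bitEncode x) ++ N487b59b3.bitEncode w = _
  rw [bitEncode_list, bitEncode_list]; rfl

theorem length_encPair (x w : List Bool) :
    (encPair x w).length = 6 * x.length + 3 * w.length + 1 := by
  rw [encPair, List.length_append, N487b59b3.length_delimit, length_bits3, length_bits3]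
  ring

/-- The template of the encoding of a pair, of which the second component is a word with a
given length. -/
def tmpl (x : List Bool) (l : ℕ) : List (ℕ × (Bool × Bool)) :=
  (N487b59b3.delimit (bits3 x)).map (fun b => (0, (b, b))) ++
  (List.range l).flatMap fun i => [(0, (true, true)), (i, (false, true)), (0, (false, false))]

theorem tmpl_ok {x : List Bool} {l : ℕ} : ∀ e ∈ tmpl x l, e.1 < l ∨ e.2.1 = e.2.2 := by
  intro e he
  rw [tmpl, List.mem_append] at he
  rcases he with he | he
  · obtain ⟨b, -, rfl⟩ := List.mem_map.1 he
    exact .inr rfl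
  · obtain ⟨i, hi, he⟩ := List.mem_flatMap.1 he
    rw [List.mem_range] at hi
    simp only [List.mem_cons, List.not_mem_nil, or_false] at he
    rcases he with rfl | rfl | rfl
    · exact .inr rfl
    · exact .inl hi
    · exact .inr rfl

theorem length_tmpl (x : List Bool) (l : ℕ) :
    (tmpl x l).length = 6 * x.length + 3 * l + 1 := by
  have h : ((List.range l).flatMap fun i =>
      [((0, (true, true)) : ℕ × (Bool × Bool)), (i, (false, true)), (0, (false, false))]).length
      = 3 * l := by
    rw [List.length_flatMap]
    simp [mul_comm]
  rw [tmpl, List.length_append, List.length_map, N487b59b3.length_delimit, length_bits3, h]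
  ring

theorem tmpl_eq (x w : List Bool) :
    (tmpl x w.length).map (fun e => if w.getD e.1 false then e.2.2 else e.2.1) =
    encPair x w := by
  rw [tmpl, List.map_append, encPair]
  congr 1
  · rw [List.map_map]
    conv_rhs => rw [← List.map_id (N487b59b3.delimit (bits3 x))]
    apply List.map_congr_left
    intro b _
    simp
  · have hw : w = (List.range w.length).map fun i => w.getD i false := by
      apply List.ext_getElem
      · simp
      · intro i h1 h2
        simp [h1]
    rw [List.map_flatMap]
    conv_rhs => rw [bits3, hw, List.flatMap_map]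
    congr 1
    funext i
    simp only [List.map_cons, List.map_nil, ite_self]
    cases w.getD i false <;> simp

/-! ### Polynomial time -/

theorem PT.polyEval {α : Type} [PolyTime.Rep α] (p : Polynomial ℕ) {n : α → ℕ} (hn : PT n) :
    PT (fun a => p.eval (n a)) := by
  induction p using Polynomial.induction_on' with
  | add p q hp hq => simp only [eval_add]; exact PT.add hp hq
  | monomial k c =>
    simp only [eval_monomial]
    exact PT.mul (PT.const c) (PT.pow hn k)

theorem PT.bits3 {α : Type} [PolyTime.Rep α] {f : α → List Bool} (hf : PT f) :
    PT (fun a => bits3 (f a)) :=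
  PT.flatMap hf (PT.cons (PT.const true) (PT.cons PT.id.snd (PT.const [false])))

theorem PT.delimit {α : Type} [PolyTime.Rep α] {f : α → List Bool} (hf : PT f) :
    PT (fun a => N487b59b3.delimit (f a)) := by
  have : PT (fun a => ((f a).flatMap fun b => [true, b]) ++ [false]) :=
    PT.append (PT.flatMap hf (PT.cons (PT.const true) (PT.cons PT.id.snd (PT.const []))))
      (PT.const [false])
  exact this.congr fun a => (delimit_eq _).symm

theorem pt_tmpl : PT (fun p : List Bool × ℕ => tmpl p.1 p.2) := by
  refine PT.append (PT.map (PT.delimit (PT.bits3 PT.id.fst))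
    (PT.pair (PT.const 0) (PT.pair PT.id.snd PT.id.snd))) ?_
  refine PT.flatRange PT.id.snd ?_
  exact PT.cons (PT.const _) (PT.cons (PT.pair PT.id.snd (PT.const (false, true)))
    (PT.const _))

/-! ### The theorem -/

/-- **The Cook-Levin theorem.** -/
theorem cookLevin {L : List Bool → Bool} (hL : L ∈ N68a2faeb.NP) :
    ∃ f : List Bool → CNF3, PT f ∧ ∀ x, L x = true ↔ Sat3 (f x) := by
  classical
  obtain ⟨p, R, ⟨C⟩, hR⟩ := hL
  set tm := C.tm with htm
  set sF : Σ k, tm.Γ k := ⟨tm.k₁, C.outputAlphabet.symm false⟩ with hsF
  set n : List Bool → ℕ := fun x => 6 * x.length + 3 * p.eval x.length + 1 with hn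
  set N : List Bool → ℕ := fun x => cost tm * C.time.eval (n x) with hN
  set st : List Bool → List Bool → Qt tm × (tm.K → List (Gt tm)) := fun x w =>
    (q0 tm, fun k => if k = tm.k₀ then
      ((encPair x w).map C.inputAlphabet.symm).map (inSym tm) else []) with hst
  have hout : ∀ x w, w.length ≤ p.eval x.length →
      (((mach tm).run (st x w) (N x)).2 tm.k₁).map Subtype.val =
        [(⟨tm.k₁, C.outputAlphabet.symm (R (x, w))⟩ : Σ k, tm.Γ k)] := by
    intro x w hw
    have h1 := C.outputsFun (x, w)
    have h2 : (N487b59b3.toEncoding (α := List Bool × List Bool)).encode (x, w)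
      = encPair x w := bitEncode_pair x w
    rw [h2] at h1
    exact output h1 (Nat.mul_le_mul_left _ (poly_mono _ (by
      rw [length_encPair, hn]
      dsimp only
      omega)))
  by_cases hF : sF ∈ sym tm
  · set A : Tab (Qt tm) tm.K (Gt tm) :=
      { M := mach tm
        q0 := q0 tm
        k0 := tm.k₀
        k1 := tm.k₁
        gs := fun b => inSym tm (C.inputAlphabet.symm b)
        gF := ⟨sF, hF⟩ } with hA
    have hstart : ∀ x w, start A (fun l => (tmpl x l).reverse) w = st x w := by
      intro x w
      rw [hst]
      dsimp only
      rw [start]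
      congr 1
      funext k
      congr 1
      rw [inst, ← List.map_reverse, List.reverse_reverse, ← tmpl_eq, List.map_map,
        List.map_map]
      rfl
    have hiff : ∀ x w, w.length ≤ p.eval x.length →
        (R (x, w) = true ↔
          (A.M.run (start A (fun l => (tmpl x l).reverse) w) (N x)).2 A.k1 ≠ [A.gF]) := by
      intro x w hw
      rw [hstart]
      have h := hout x w hw
      constructor
      · intro hr h2
        have h3 : (((mach tm).run (st x w) (N x)).2 tm.k₁).map Subtype.val =
          [sF] := by
          have h4 : ((mach tm).run (st x w) (N x)).2 tm.k₁ = [⟨sF, hF⟩] := h2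
          rw [h4]; rfl
        rw [h, hr, hsF] at h3
        have h5 := eq_of_heq (Sigma.mk.inj (List.cons.inj h3).1).2
        exact absurd (C.outputAlphabet.symm.injective h5) (by simp)
      · intro h2
        by_contra hr
        rw [Bool.not_eq_true] at hr
        rw [hr] at h
        apply h2
        apply List.map_injective_iff.2 Subtype.val_injective
        exact h
    refine ⟨fun x => toCNF (tableau A (N x) (n x + N x + 1) (p.eval x.length)
      (fun l => (tmpl x l).reverse)), ?_, ?_⟩
    · have hlen : PT (fun x : List Bool => x.length) := PT.length PT.id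
      have hpn : PT n := PT.succ (PT.add (PT.mul (PT.const 6) hlen)
        (PT.mul (PT.const 3) (PT.polyEval p hlen)))
      have hpN : PT N := PT.mul (PT.const _) (PT.polyEval C.time hpn)
      exact pt_tableau (T := fun x l => (tmpl x l).reverse) A hpN
        (PT.succ (PT.add hpn hpN)) (PT.polyEval p hlen)
        (PT.reverse pt_tmpl)
    · intro x
      rw [sat3_toCNF, hR]
      constructor
      · rintro ⟨w, hw, hr⟩
        exact ⟨_, good_val A _ _ _ _ w hw ((hiff x w hw).1 hr)⟩
      · rintro ⟨v, hv⟩
        obtain ⟨w, hw, h⟩ := run_of_good A _ _ _ _ (fun l hl => by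
            rw [List.length_reverse, length_tmpl]
            simp only [hn]
            omega)
          (fun l hl e he => tmpl_ok e (List.mem_reverse.1 he)) v hv
        exact ⟨w, hw, (hiff x w hw).2 h⟩
  · refine ⟨fun _ => [], PT.const [], fun x => ?_⟩
    refine ⟨fun _ => ⟨fun _ => false, by simp⟩, fun _ => ?_⟩
    rw [hR]
    refine ⟨[], Nat.zero_le _, ?_⟩
    by_contra hr
    rw [Bool.not_eq_true] at hr
    have h := hout x [] (Nat.zero_le _)
    rw [hr] at h
    obtain ⟨g, l, h1, h2, -⟩ := List.map_eq_cons_iff.1 h
    apply hF
    have := g.2
    rw [h2] at this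
    exact this

end Pool.Agent.CookLevin
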