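import Pool.Agent.Lib.MP_a08d7f_lc.Defs

/-!
# The tableau of a multi-stack machine

For a machine with finitely many control states, stacks and stack symbols, each step of which
looks at the top of one stack, we write down a 3-CNF formula which is satisfiable if and only
if there is a word `w` of bounded length such that the run of the machine from the start
configuration for `w` avoids a given output.
-/

namespace Pool.Agent.CookLevin

open Function

/-- A machine with control states `Q`, stacks `K` and stack symbols `G`: in state `q` it looks
at the top of the stack `stk q`, goes to the state `nxt q top` and acts on that stack by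
`act q top`: `none` does nothing, `some none` pops, and `some (some g)` pushes `g`. -/
structure Mach (Q K G : Type) where
  stk : Q → K
  nxt : Q → Option G → Q
  act : Q → Option G → Option (Option G)

variable {Q K G : Type} [DecidableEq K]

/-- The effect of an action on a stack. -/
def appl (a : Option (Option G)) (l : List G) : List G :=
  match a with
  | none => l
  | some none => l.tail
  | some (some g) => g :: l

/-- One step of the machine. -/
def Mach.step (M : Mach Q K G) (c : Q × (K → List G)) : Q × (K → List G) :=
  (M.nxt c.1 (c.2 (M.stk c.1)).head?,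
   update c.2 (M.stk c.1) (appl (M.act c.1 (c.2 (M.stk c.1)).head?) (c.2 (M.stk c.1))))

/-- The run of the machine. -/
def Mach.run (M : Mach Q K G) (c : Q × (K → List G)) : ℕ → Q × (K → List G)
  | 0 => c
  | t + 1 => M.step (M.run c t)

/-- The propositional variables. -/
inductive Fact (Q K G : Type) : Type
  | ctl (t : ℕ) (q : Q)
  | hgt (t : ℕ) (k : K) (j : ℕ)
  | cell (t : ℕ) (k : K) (j : ℕ) (g : G)
  | top (t : ℕ) (k : K) (o : Option G)
  | rul (t : ℕ) (q : Q) (o : Option G)
  | bit (i : ℕ)
  | len (l : ℕ)
  | chn (l : ℕ)

/-- Literals. -/
abbrev FLit (Q K G : Type) : Type := Fact Q K G × Bool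

/-- Clauses with three literals. -/
abbrev Cls (Q K G : Type) : Type := FLit Q K G × (FLit Q K G × FLit Q K G)

/-- The truth of a clause. -/
def csat (v : Fact Q K G → Bool) (c : Cls Q K G) : Prop :=
  v c.1.1 = c.1.2 ∨ v c.2.1.1 = c.2.1.2 ∨ v c.2.2.1 = c.2.2.2

/-- The truth of a formula. -/
def Good (v : Fact Q K G → Bool) (φ : List (Cls Q K G)) : Prop := ∀ c ∈ φ, csat v c

omit [DecidableEq K] in
theorem good_append {v : Fact Q K G → Bool} {φ ψ : List (Cls Q K G)} :
    Good v (φ ++ ψ) ↔ Good v φ ∧ Good v ψ := by
  simp only [Good, List.mem_append]
  exact ⟨fun h => ⟨fun c hc => h c (.inl hc), fun c hc => h c (.inr hc)⟩,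
    fun h c hc => hc.elim (h.1 c) (h.2 c)⟩

omit [DecidableEq K] in
theorem good_flatMap {v : Fact Q K G → Bool} {ι : Type*} {l : List ι}
    {f : ι → List (Cls Q K G)} : Good v (l.flatMap f) ↔ ∀ i ∈ l, Good v (f i) := by
  simp only [Good, List.mem_flatMap]
  exact ⟨fun h i hi c hc => h c ⟨i, hi, hc⟩, fun h c ⟨i, hi, hc⟩ => h i hi c hc⟩

omit [DecidableEq K] in
theorem good_nil {v : Fact Q K G → Bool} : Good v ([] : List (Cls Q K G)) := by
  intro c hc; simp at hc

omit [DecidableEq K] in
theorem good_singleton {v : Fact Q K G → Bool} {c : Cls Q K G} :
    Good v [c] ↔ csat v c := by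
  simp [Good]

/-- The clause `c`. -/
def fc (c : Fact Q K G) : Cls Q K G := ((c, true), ((c, true), (c, true)))

/-- The clause `¬ c`. -/
def nc (c : Fact Q K G) : Cls Q K G := ((c, false), ((c, false), (c, false)))

/-- The clause `a → c`. -/
def i1 (a c : Fact Q K G) : Cls Q K G := ((a, false), ((c, true), (c, true)))

/-- The clause `a → b → c`. -/
def i2 (a b c : Fact Q K G) : Cls Q K G := ((a, false), ((b, false), (c, true)))

/-- The clause `a → b ∨ c`. -/
def i3 (a b c : Fact Q K G) : Cls Q K G := ((a, false), ((b, true), (c, true)))

/-- The clause `¬ (a ∧ b)`. -/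
def i4 (a b : Fact Q K G) : Cls Q K G := ((a, false), ((b, false), (b, false)))

omit [DecidableEq K] in
theorem csat_fc {v : Fact Q K G → Bool} {c : Fact Q K G} : csat v (fc c) ↔ v c = true := by
  simp [csat, fc]

omit [DecidableEq K] in
theorem csat_nc {v : Fact Q K G → Bool} {c : Fact Q K G} : csat v (nc c) ↔ v c = false := by
  simp [csat, nc]

omit [DecidableEq K] in
theorem csat_i1 {v : Fact Q K G → Bool} {a c : Fact Q K G} :
    csat v (i1 a c) ↔ (v a = true → v c = true) := by
  simp only [csat, i1]
  cases v a <;> simp

omit [DecidableEq K] in
theorem csat_i2 {v : Fact Q K G → Bool} {a b c : Fact Q K G} :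
    csat v (i2 a b c) ↔ (v a = true → v b = true → v c = true) := by
  simp only [csat, i2]
  cases v a <;> cases v b <;> simp

omit [DecidableEq K] in
theorem csat_i3 {v : Fact Q K G → Bool} {a b c : Fact Q K G} :
    csat v (i3 a b c) ↔ (v a = true → v b = true ∨ v c = true) := by
  simp only [csat, i3]
  cases v a <;> simp

omit [DecidableEq K] in
theorem csat_i4 {v : Fact Q K G → Bool} {a b : Fact Q K G} :
    csat v (i4 a b) ↔ ¬ (v a = true ∧ v b = true) := by
  simp only [csat, i4]
  cases v a <;> cases v b <;> simp

/-- The new height of a stack. -/
def newh (a : Option (Option G)) (j : ℕ) : ℕ :=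
  match a with
  | none => j
  | some none => j - 1
  | some (some _) => j + 1

omit [DecidableEq K] in
theorem length_appl (a : Option (Option G)) (l : List G) :
    (appl a l).length = newh a l.length := by
  rcases a with _ | _ | g <;> simp [appl, newh]

/-- The data of a tableau. -/
structure Tab (Q K G : Type) where
  M : Mach Q K G
  q0 : Q
  k0 : K
  k1 : K
  gs : Bool → G
  gF : G

/-- All elements of a finite type. -/
noncomputable def uni (α : Type) [Fintype α] : List α := Finset.univ.toList

theorem mem_uni {α : Type} [Fintype α] (a : α) : a ∈ uni α := by simp [uni]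

section

variable [Fintype Q] [Fintype K] [Fintype G] [DecidableEq Q] [DecidableEq G]

/-- The clauses which describe the tops of the stacks. -/
noncomputable def cTop (N H : ℕ) : List (Cls Q K G) :=
  ((uni K).flatMap fun k => (List.range N).flatMap fun t =>
    [i1 (.hgt t k 0) (.top t k none)]) ++
  ((uni K).flatMap fun k => (uni G).flatMap fun g => (List.range N).flatMap fun t =>
    (List.range H).flatMap fun j =>
      [i2 (.hgt t k (j + 1)) (.cell t k j g) (.top t k (some g))])

/-- The clauses which describe the rules. -/
noncomputable def cRul (M : Mach Q K G) (N H : ℕ) : List (Cls Q K G) :=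
  ((uni Q).flatMap fun q => (uni (Option G)).flatMap fun o => (List.range N).flatMap fun t =>
    [i2 (.ctl t q) (.top t (M.stk q) o) (.rul t q o)]) ++
  ((uni Q).flatMap fun q => (uni (Option G)).flatMap fun o => (List.range N).flatMap fun t =>
    [i1 (.rul t q o) (.ctl (t + 1) (M.nxt q o))]) ++
  ((uni Q).flatMap fun q => (uni (Option G)).flatMap fun o => (List.range N).flatMap fun t =>
    (List.range H).flatMap fun j =>
      [i2 (.rul t q o) (.hgt t (M.stk q) j) (.hgt (t + 1) (M.stk q) (newh (M.act q o) j))]) ++
  ((uni Q).flatMap fun q => (uni (Option G)).flatMap fun o => (uni G).flatMap fun g =>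
    if M.act q o = some (some g) then (List.range N).flatMap fun t =>
    (List.range H).flatMap fun j =>
      [i2 (.rul t q o) (.hgt t (M.stk q) j) (.cell (t + 1) (M.stk q) j g)] else [])

/-- The clauses which say what does not change. -/
noncomputable def cFix (M : Mach Q K G) (N H : ℕ) : List (Cls Q K G) :=
  ((uni Q).flatMap fun q => (uni K).flatMap fun k =>
    if k = M.stk q then [] else (List.range N).flatMap fun t =>
    (List.range H).flatMap fun j =>
      [i2 (.ctl t q) (.hgt t k j) (.hgt (t + 1) k j)]) ++
  ((uni K).flatMap fun k => (uni G).flatMap fun g => (List.range N).flatMap fun t =>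
    (List.range H).flatMap fun h => (List.range h).flatMap fun i =>
      [i2 (.hgt t k h) (.cell t k i g) (.cell (t + 1) k i g)])

/-- The clauses for the start configuration and the length of the word. -/
noncomputable def cIni (A : Tab Q K G) (P : ℕ) (T : ℕ → List (ℕ × (Bool × Bool))) :
    List (Cls Q K G) :=
  [fc (.ctl 0 A.q0)] ++
  ((uni K).flatMap fun k => if k = A.k0 then [] else [fc (.hgt 0 k 0)]) ++
  ((List.range (P + 1)).flatMap fun l => [i1 (.len l) (.hgt 0 A.k0 (T l).length)]) ++
  ((List.range (P + 1)).flatMap fun l => (T l).zipIdx.flatMap fun e =>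
    [i2 (.len l) (.bit e.1.1) (.cell 0 A.k0 e.2 (A.gs e.1.2.2))]) ++
  ((List.range (P + 1)).flatMap fun l => (T l).zipIdx.flatMap fun e =>
    [i3 (.len l) (.bit e.1.1) (.cell 0 A.k0 e.2 (A.gs e.1.2.1))]) ++
  [fc (.chn 0)] ++
  ((List.range (P + 1)).flatMap fun l => [i3 (.chn l) (.len l) (.chn (l + 1))]) ++
  [nc (.chn (P + 1))]

/-- The tableau. -/
noncomputable def tableau (A : Tab Q K G) (N H P : ℕ) (T : ℕ → List (ℕ × (Bool × Bool))) :
    List (Cls Q K G) :=
  cTop N H ++ cRul A.M N H ++ cFix A.M N H ++ cIni A P T ++
  [i4 (.hgt N A.k1 1) (.cell N A.k1 0 A.gF)]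

/-- The word described by a template. -/
def inst (A : Tab Q K G) (T : List (ℕ × (Bool × Bool))) (w : List Bool) : List G :=
  T.map fun e => A.gs (if w.getD e.1 false then e.2.2 else e.2.1)

/-- The start configuration. -/
def start (A : Tab Q K G) (T : ℕ → List (ℕ × (Bool × Bool))) (w : List Bool) :
    Q × (K → List G) :=
  (A.q0, fun k => if k = A.k0 then (inst A (T w.length) w).reverse else [])

/-- The assignment given by a run. -/
def val (M : Mach Q K G) (c : ℕ → Q × (K → List G)) (w : List Bool) : Fact Q K G → Bool
  | .ctl t q => decide ((c t).1 = q)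
  | .hgt t k j => decide (((c t).2 k).length = j)
  | .cell t k j g => decide (((c t).2 k).length ≤ j ∨ ((c t).2 k).reverse[j]? = some g)
  | .top t k o => decide (((c t).2 k).head? = o)
  | .rul t q o => decide ((c t).1 = q ∧ ((c t).2 (M.stk q)).head? = o)
  | .bit i => w.getD i false
  | .len l => decide (w.length = l)
  | .chn l => decide (l ≤ w.length)

omit [DecidableEq K] [DecidableEq G] [Fintype Q] [Fintype K] [Fintype G] [DecidableEq Q] in
theorem head?_eq_reverse {l : List G} {j : ℕ} {g : G} (h : l.length = j + 1)
    (hg : l.reverse[j]? = some g) : l.head? = some g := by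
  cases l with
  | nil => simp at h
  | cons a l =>
    simp only [List.length_cons, Nat.add_right_cancel_iff] at h
    subst h
    rw [List.reverse_cons, List.getElem?_append_right (by simp)] at hg
    simpa using hg

theorem good_val (A : Tab Q K G) (N H P : ℕ) (T : ℕ → List (ℕ × (Bool × Bool)))
    (w : List Bool) (hw : w.length ≤ P)
    (hout : (A.M.run (start A T w) N).2 A.k1 ≠ [A.gF]) :
    Good (val A.M (A.M.run (start A T w)) w) (tableau A N H P T) := by
  set c := A.M.run (start A T w) with hc
  have hstep : ∀ t, c (t + 1) = A.M.step (c t) := fun t => rfl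
  have h0 : c 0 = start A T w := rfl
  simp only [tableau, cTop, cRul, cFix, cIni, good_append, good_flatMap, good_singleton,
    csat_i1, csat_i2, csat_i3, csat_i4, csat_fc, csat_nc, val, decide_eq_true_eq,
    decide_eq_false_iff_not]
  refine ⟨⟨⟨⟨⟨?_, ?_⟩, ⟨⟨⟨?_, ?_⟩, ?_⟩, ?_⟩⟩, ⟨?_, ?_⟩⟩,
    ⟨⟨⟨⟨⟨⟨⟨?_, ?_⟩, ?_⟩, ?_⟩, ?_⟩, ?_⟩, ?_⟩, ?_⟩⟩, ?_⟩
  · intro k _ t _ h
    simp [List.length_eq_zero_iff.1 h]
  · intro k _ g _ t _ j _ h h'
    rcases h' with h' | h'
    · omega
    · exact head?_eq_reverse h h'
  · intro q _ o _ t _ h h'
    exact ⟨h, h'⟩
  · rintro q _ o _ t _ ⟨rfl, rfl⟩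
    rw [hstep]; rfl
  · rintro q _ o _ t _ j _ ⟨rfl, rfl⟩ rfl
    rw [hstep]
    simp only [Mach.step, update_self, length_appl]
  · intro q _ o _ g _
    split
    · rename_i hg
      simp only [good_flatMap, good_singleton, csat_i2, val, decide_eq_true_eq]
      rintro t _ j _ ⟨rfl, rfl⟩ rfl
      rw [hstep]
      simp only [Mach.step, update_self, hg, appl]
      right
      rw [List.reverse_cons, List.getElem?_append_right (by simp)]
      simp
    · exact good_nil
  · intro q _ k _
    split
    · exact good_nil
    · rename_i hk
      simp only [good_flatMap, good_singleton, csat_i2, val, decide_eq_true_eq]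
      rintro t _ j _ rfl rfl
      rw [hstep]
      simp only [Mach.step]
      rw [update_of_ne hk]
  · intro k _ g _ t _ h _ i hi hh hcell
    rw [List.mem_range] at hi
    subst hh
    rcases hcell with hcell | hcell
    · omega
    rw [hstep]
    simp only [Mach.step]
    by_cases hk : k = A.M.stk (c t).1
    · subst hk
      rw [update_self]
      rcases A.M.act (c t).1 ((c t).2 (A.M.stk (c t).1)).head? with _ | _ | g'
      · right; exact hcell
      · simp only [appl]
        rcases hl : (c t).2 (A.M.stk (c t).1) with _ | ⟨a, l⟩
        · left; simp
        · rw [hl] at hcell hi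
          by_cases h3 : l.length ≤ i
          · left; simpa using h3
          · right
            rw [List.reverse_cons, List.getElem?_append_left (by simp; omega)] at hcell
            simpa using hcell
      · right
        simp only [appl]
        rw [List.reverse_cons, List.getElem?_append_left (by simp; omega)]
        exact hcell
    · rw [update_of_ne hk]
      right; exact hcell
  · rw [h0]; rfl
  · intro k _
    split
    · exact good_nil
    · rename_i hk
      rw [good_singleton, csat_fc]
      simp only [val, h0, start, if_neg hk, List.length_nil, decide_true]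
  · rintro l _ rfl
    simp [h0, start, inst]
  · rintro l _ e he rfl hb
    right
    rw [h0]
    simp only [start, if_true, List.reverse_reverse, inst, List.getElem?_map]
    rw [List.mem_zipIdx_iff_getElem?] at he
    rw [he, Option.map_some, if_pos hb]
  · rintro l _ e he rfl
    by_cases hb : w.getD e.1.1 false = true
    · left; exact hb
    · right
      right
      rw [h0]
      simp only [start, if_true, List.reverse_reverse, inst, List.getElem?_map]
      rw [List.mem_zipIdx_iff_getElem?] at he
      rw [he, Option.map_some, if_neg hb]
  · omega
  · intro l _ hl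
    omega
  · omega
  · rintro ⟨h1, h2⟩
    apply hout
    rcases h2 with h2 | h2
    · omega
    · obtain ⟨a, ha⟩ := List.length_eq_one_iff.1 h1
      rw [ha] at h2 ⊢
      simpa using h2

theorem run_of_good (A : Tab Q K G) (N H P : ℕ) (T : ℕ → List (ℕ × (Bool × Bool)))
    (hT : ∀ l ≤ P, (T l).length + N < H)
    (hT' : ∀ l ≤ P, ∀ e ∈ T l, e.1 < l ∨ e.2.1 = e.2.2)
    (v : Fact Q K G → Bool) (hv : Good v (tableau A N H P T)) :
    ∃ w : List Bool, w.length ≤ P ∧ (A.M.run (start A T w) N).2 A.k1 ≠ [A.gF] := by
  simp only [tableau, cTop, cRul, cFix, cIni, good_append, good_flatMap, good_singleton,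
    csat_i1, csat_i2, csat_i3, csat_i4, csat_fc, csat_nc] at hv
  obtain ⟨⟨⟨⟨⟨a1, a2⟩, ⟨⟨⟨b1, b2⟩, b3⟩, b4⟩⟩, ⟨c1, c2⟩⟩,
    ⟨⟨⟨⟨⟨⟨⟨d1, d2⟩, d3⟩, d4⟩, d5⟩, d6⟩, d7⟩, d8⟩⟩, e1⟩ := hv
  have hlen : ∃ l ≤ P, v (.len l) = true := by
    by_contra hno
    push_neg at hno
    have h : ∀ l ≤ P + 1, v (.chn l) = true := by
      intro l
      induction l with
      | zero => intro _; exact d6
      | succ l ih =>
        intro hl
        rcases d7 l (List.mem_range.2 (by omega)) (ih (by omega)) with h | h
        · exact absurd h (hno l (by omega))
        · exact h
    rw [h (P + 1) le_rfl] at d8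
    exact absurd d8 (by simp)
  obtain ⟨l, hl, hvl⟩ := hlen
  set w : List Bool := (List.range l).map fun i => v (.bit i) with hw
  have hwl : w.length = l := by simp [hw]
  have hwb : ∀ i < l, w.getD i false = v (.bit i) := by
    intro i hi
    simp [hw, List.getD, List.getElem?_map, List.getElem?_range hi]
  refine ⟨w, by omega, ?_⟩
  set c := A.M.run (start A T w) with hc
  have hstep : ∀ t, c (t + 1) = A.M.step (c t) := fun t => rfl
  have h0 : c 0 = start A T w := rfl
  have key : ∀ t ≤ N, v (.ctl t (c t).1) = true ∧
      (∀ k, v (.hgt t k ((c t).2 k).length) = true) ∧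
      (∀ k j g, ((c t).2 k).reverse[j]? = some g → v (.cell t k j g) = true) ∧
      (∀ k, ((c t).2 k).length ≤ (T l).length + t) := by
    intro t
    induction t with
    | zero =>
      intro _
      rw [h0]
      refine ⟨d1, ?_, ?_, ?_⟩
      · intro k
        by_cases hk : k = A.k0
        · subst hk
          simp only [start, if_true, List.length_reverse, inst, List.length_map, hwl]
          exact d3 l (List.mem_range.2 (by omega)) hvl
        · simp only [start, if_neg hk, List.length_nil]
          have := d2 k (mem_uni k)
          rw [if_neg hk, good_singleton, csat_fc] at this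
          exact this
      · intro k j g hg
        by_cases hk : k = A.k0
        · subst hk
          simp only [start, if_true, List.reverse_reverse, inst, List.getElem?_map, hwl] at hg
          rcases he : (T l)[j]? with _ | e
          · rw [he] at hg; simp at hg
          · rw [he, Option.map_some, Option.some_inj] at hg
            have hm : (e, j) ∈ (T l).zipIdx := by
              rw [List.mem_zipIdx_iff_getElem?]; exact he
            have g4 := d4 l (List.mem_range.2 (by omega)) (e, j) hm hvl
            have g5 := d5 l (List.mem_range.2 (by omega)) (e, j) hm hvl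
            rcases hT' l hl e (List.mem_of_getElem? he) with h | h
            · rw [hwb e.1 h] at hg
              by_cases hb : v (.bit e.1) = true
              · rw [if_pos hb] at hg
                rw [← hg]
                exact g4 hb
              · rw [if_neg hb] at hg
                rw [← hg]
                exact g5.resolve_left hb
            · have hg' : A.gs e.2.1 = g := by
                split at hg
                · rw [h]; exact hg
                · exact hg
              rw [← hg']
              rcases g5 with g5 | g5
              · have := g4 g5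
                simp only at this
                rw [h]; exact this
              · exact g5
        · simp [start, if_neg hk] at hg
      · intro k
        by_cases hk : k = A.k0
        · subst hk
          simp [start, inst, hwl]
        · simp [start, if_neg hk]
    | succ t ih =>
      intro ht
      obtain ⟨i1, i2, i3, i4⟩ := ih (by omega)
      have hTl := hT l hl
      have hmt : t ∈ List.range N := List.mem_range.2 (by omega)
      have hlt : ∀ k, ((c t).2 k).length < H := fun k => by have := i4 k; omega
      have htop : v (.top t (A.M.stk (c t).1) ((c t).2 (A.M.stk (c t).1)).head?) = true := by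
        have hk := i2 (A.M.stk (c t).1)
        have hk' := i3 (A.M.stk (c t).1)
        have hk'' := hlt (A.M.stk (c t).1)
        rcases hs : (c t).2 (A.M.stk (c t).1) with _ | ⟨a, s⟩
        · rw [hs] at hk
          exact a1 _ (mem_uni _) t hmt hk
        · rw [hs] at hk hk' hk''
          simp only [List.length_cons] at hk hk''
          have := hk' s.length a (by
            rw [List.reverse_cons, List.getElem?_append_right (by simp)]
            simp)
          exact a2 _ (mem_uni _) a (mem_uni _) t hmt s.length (List.mem_range.2 (by omega))
            hk this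
      have hrul := b1 (c t).1 (mem_uni _) _ (mem_uni _) t hmt i1 htop
      rw [hstep]
      refine ⟨b2 _ (mem_uni _) _ (mem_uni _) t hmt hrul, ?_, ?_, ?_⟩
      · intro k
        by_cases hk : k = A.M.stk (c t).1
        · subst hk
          simp only [Mach.step, update_self, length_appl]
          exact b3 _ (mem_uni _) _ (mem_uni _) t hmt _ (List.mem_range.2 (hlt _)) hrul (i2 _)
        · simp only [Mach.step, update_of_ne hk]
          have := c1 (c t).1 (mem_uni _) k (mem_uni _)
          rw [if_neg hk] at this
          simp only [good_flatMap, good_singleton, csat_i2] at this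
          exact this t hmt _ (List.mem_range.2 (hlt _)) i1 (i2 _)
      · intro k j g hg
        have hold : j < ((c t).2 k).length → ((c t).2 k).reverse[j]? = some g →
            v (.cell (t + 1) k j g) = true := fun hj hg =>
          c2 k (mem_uni _) g (mem_uni _) t hmt _ (List.mem_range.2 (hlt k)) j
            (List.mem_range.2 hj) (i2 k) (i3 k j g hg)
        by_cases hk : k = A.M.stk (c t).1
        · subst hk
          simp only [Mach.step, update_self] at hg
          rcases ha : A.M.act (c t).1 ((c t).2 (A.M.stk (c t).1)).head? with _ | _ | g'
          · rw [ha] at hg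
            simp only [appl] at hg
            refine hold ?_ hg
            by_contra h
            rw [List.getElem?_eq_none (by simpa using h)] at hg
            exact absurd hg (by simp)
          · rw [ha] at hg
            simp only [appl] at hg
            rcases hs : (c t).2 (A.M.stk (c t).1) with _ | ⟨a, s⟩
            · rw [hs] at hg; simp at hg
            · rw [hs] at hg hold
              simp only [List.tail_cons] at hg
              have hj : j < s.length := by
                by_contra h
                rw [List.getElem?_eq_none (by simpa using h)] at hg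
                exact absurd hg (by simp)
              refine hold (by simp; omega) ?_
              rw [List.reverse_cons, List.getElem?_append_left (by simpa using hj)]
              exact hg
          · rw [ha] at hg
            simp only [appl] at hg
            rw [List.reverse_cons] at hg
            by_cases hj : j < ((c t).2 (A.M.stk (c t).1)).length
            · rw [List.getElem?_append_left (by simpa using hj)] at hg
              exact hold hj hg
            · rw [List.getElem?_append_right (by simpa using hj)] at hg
              have hj' : j = ((c t).2 (A.M.stk (c t).1)).length := by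
                by_contra h
                rw [List.getElem?_eq_none (by simp; omega)] at hg
                exact absurd hg (by simp)
              subst hj'
              simp only [List.length_reverse, Nat.sub_self,
                List.getElem?_cons_zero, Option.some_inj] at hg
              subst hg
              have := b4 (c t).1 (mem_uni _) ((c t).2 (A.M.stk (c t).1)).head? (mem_uni _)
                g' (mem_uni _)
              rw [if_pos ha] at this
              simp only [good_flatMap, good_singleton, csat_i2] at this
              exact this t hmt _ (List.mem_range.2 (hlt _)) hrul (i2 _)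
        · simp only [Mach.step, update_of_ne hk] at hg
          refine hold ?_ hg
          by_contra h
          rw [List.getElem?_eq_none (by simpa using h)] at hg
          exact absurd hg (by simp)
      · intro k
        by_cases hk : k = A.M.stk (c t).1
        · subst hk
          simp only [Mach.step, update_self, length_appl]
          have := i4 (A.M.stk (c t).1)
          rcases A.M.act (c t).1 ((c t).2 (A.M.stk (c t).1)).head? with _ | _ | g' <;>
            simp only [newh] <;> omega
        · simp only [Mach.step, update_of_ne hk]
          have := i4 k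
          omega
  obtain ⟨-, k2, k3, -⟩ := key N le_rfl
  intro hout
  apply e1
  refine ⟨?_, ?_⟩
  · have := k2 A.k1
    rw [hout] at this
    exact this
  · apply k3
    rw [hout]
    rfl

end

end Pool.Agent.CookLevin
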