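import Pool.Agent.Lib.CookLevin.Tableau
import Pool.Agent.Lib.PolyTime.ListOps

/-!
# The tableau is computable in polynomial time
-/

namespace Pool.Agent.CookLevin

open Function Pool.Agent.PolyTime Pool.Agent.PathSys

/-- The number of an element of a finite type. -/
noncomputable def code {α : Type} [Fintype α] (a : α) : ℕ := (Fintype.equivFin α a).val

theorem code_inj {α : Type} [Fintype α] {a b : α} : code a = code b ↔ a = b := by
  refine ⟨fun h => (Fintype.equivFin α).injective (Fin.val_injective h), fun h => h ▸ rfl⟩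

/-- Pairing of five numbers. -/
def pk (a b c d e : ℕ) : ℕ := Nat.pair a (Nat.pair b (Nat.pair c (Nat.pair d e)))

theorem pk_inj {a b c d e a' b' c' d' e' : ℕ} : pk a b c d e = pk a' b' c' d' e' ↔
    a = a' ∧ b = b' ∧ c = c' ∧ d = d' ∧ e = e' := by
  simp [pk, Nat.pair_eq_pair]

variable {Q K G : Type} [Fintype Q] [Fintype K] [Fintype G]

/-- The number of a propositional variable. -/
noncomputable def num : Fact Q K G → ℕ
  | .ctl t q => pk 0 t (code q) 0 0
  | .hgt t k j => pk 1 t (code k) j 0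
  | .cell t k j g => pk 2 t (code k) j (code g)
  | .top t k o => pk 3 t (code k) (code o) 0
  | .rul t q o => pk 4 t (code q) (code o) 0
  | .bit i => pk 5 i 0 0 0
  | .len l => pk 6 l 0 0 0
  | .chn l => pk 7 l 0 0 0

theorem num_injective : Injective (num : Fact Q K G → ℕ) := by
  intro a b h
  cases a <;> cases b <;> simp only [num, pk_inj, code_inj] at h <;>
    first
    | (exfalso; omega)
    | (simp_all; done)

/-- The literal with the number of a variable. -/
noncomputable def numL (l : FLit Q K G) : Lit := (num l.1, l.2)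

/-- The 3-CNF formula with numbers as variables. -/
noncomputable def toCNF (φ : List (Cls Q K G)) : CNF3 :=
  φ.map fun c => (numL c.1, (numL c.2.1, numL c.2.2))

theorem sat3_toCNF (φ : List (Cls Q K G)) : Sat3 (toCNF φ) ↔ ∃ v, Good v φ := by
  constructor
  · rintro ⟨v, hv⟩
    refine ⟨fun f => v (num f), fun c hc => ?_⟩
    have := hv _ (List.mem_map.2 ⟨c, hc, rfl⟩)
    exact this
  · rintro ⟨v, hv⟩
    refine ⟨extend num v (fun _ => false), fun c hc => ?_⟩
    obtain ⟨d, hd, rfl⟩ := List.mem_map.1 hc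
    have := hv d hd
    simp only [litVal, numL, num_injective.extend_apply]
    exact this

noncomputable instance : Rep (Fact Q K G) := ⟨fun f => toT (num f)⟩

universe u
variable {α : Type u} [Rep α]

theorem PT.natPair {f g : α → ℕ} (hf : PT f) (hg : PT g) :
    PT (fun a => Nat.pair (f a) (g a)) := by
  refine (PT.ite (PT.lt hf hg) (PT.add (PT.mul hg hg) hf)
    (PT.add (PT.add (PT.mul hf hf) hf) hg)).congr fun a => ?_
  unfold Nat.pair
  by_cases h : f a < g a <;> simp [h]

theorem PT.pk {a b c d e : α → ℕ} (ha : PT a) (hb : PT b) (hc : PT c) (hd : PT d)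
    (he : PT e) : PT (fun x => pk (a x) (b x) (c x) (d x) (e x)) :=
  PT.natPair ha (PT.natPair hb (PT.natPair hc (PT.natPair hd he)))

theorem pt_ctl {t : α → ℕ} (ht : PT t) (q : Q) :
    PT (fun a => (.ctl (t a) q : Fact Q K G)) :=
  PT.pk (PT.const 0) ht (PT.const _) (PT.const 0) (PT.const 0)

theorem pt_hgt {t j : α → ℕ} (ht : PT t) (k : K) (hj : PT j) :
    PT (fun a => (.hgt (t a) k (j a) : Fact Q K G)) :=
  PT.pk (PT.const 1) ht (PT.const _) hj (PT.const 0)

theorem pt_cell {t j : α → ℕ} (ht : PT t) (k : K) (hj : PT j) (g : G) :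
    PT (fun a => (.cell (t a) k (j a) g : Fact Q K G)) :=
  PT.pk (PT.const 2) ht (PT.const _) hj (PT.const _)

theorem pt_cell' {t j : α → ℕ} (ht : PT t) (k : K) (hj : PT j) (gs : Bool → G)
    {b : α → Bool} (hb : PT b) :
    PT (fun a => (.cell (t a) k (j a) (gs (b a)) : Fact Q K G)) := by
  refine (PT.ite hb (pt_cell ht k hj (gs true)) (pt_cell ht k hj (gs false))).congr
    fun a => ?_
  cases b a <;> simp

theorem pt_top {t : α → ℕ} (ht : PT t) (k : K) (o : Option G) :
    PT (fun a => (.top (t a) k o : Fact Q K G)) :=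
  PT.pk (PT.const 3) ht (PT.const _) (PT.const _) (PT.const 0)

theorem pt_rul {t : α → ℕ} (ht : PT t) (q : Q) (o : Option G) :
    PT (fun a => (.rul (t a) q o : Fact Q K G)) :=
  PT.pk (PT.const 4) ht (PT.const _) (PT.const _) (PT.const 0)

theorem pt_bit {i : α → ℕ} (hi : PT i) : PT (fun a => (.bit (i a) : Fact Q K G)) :=
  PT.pk (PT.const 5) hi (PT.const 0) (PT.const 0) (PT.const 0)

theorem pt_len {i : α → ℕ} (hi : PT i) : PT (fun a => (.len (i a) : Fact Q K G)) :=
  PT.pk (PT.const 6) hi (PT.const 0) (PT.const 0) (PT.const 0)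

theorem pt_chn {i : α → ℕ} (hi : PT i) : PT (fun a => (.chn (i a) : Fact Q K G)) :=
  PT.pk (PT.const 7) hi (PT.const 0) (PT.const 0) (PT.const 0)

theorem PT.single {β : Type*} [Rep β] {f : α → β} (hf : PT f) : PT (fun a => [f a]) :=
  PT.cons hf (PT.const [])

theorem pt_lit {f : α → Fact Q K G} (hf : PT f) (b : Bool) :
    PT (fun x => ((f x, b) : FLit Q K G)) := PT.pair hf (PT.const b)

theorem pt_fc {c : α → Fact Q K G} (hc : PT c) : PT (fun x => fc (c x)) :=
  PT.pair (pt_lit hc true) (PT.pair (pt_lit hc true) (pt_lit hc true))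

theorem pt_nc {c : α → Fact Q K G} (hc : PT c) : PT (fun x => nc (c x)) :=
  PT.pair (pt_lit hc false) (PT.pair (pt_lit hc false) (pt_lit hc false))

theorem pt_i1 {a c : α → Fact Q K G} (ha : PT a) (hc : PT c) :
    PT (fun x => i1 (a x) (c x)) :=
  PT.pair (pt_lit ha false) (PT.pair (pt_lit hc true) (pt_lit hc true))

theorem pt_i2 {a b c : α → Fact Q K G} (ha : PT a) (hb : PT b) (hc : PT c) :
    PT (fun x => i2 (a x) (b x) (c x)) :=
  PT.pair (pt_lit ha false) (PT.pair (pt_lit hb false) (pt_lit hc true))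

theorem pt_i3 {a b c : α → Fact Q K G} (ha : PT a) (hb : PT b) (hc : PT c) :
    PT (fun x => i3 (a x) (b x) (c x)) :=
  PT.pair (pt_lit ha false) (PT.pair (pt_lit hb true) (pt_lit hc true))

theorem pt_i4 {a b : α → Fact Q K G} (ha : PT a) (hb : PT b) :
    PT (fun x => i4 (a x) (b x)) :=
  PT.pair (pt_lit ha false) (PT.pair (pt_lit hb false) (pt_lit hb false))

theorem PT.flatConst {β : Type*} [Rep β] {ι : Type*} {F : ι → α → List β} (l : List ι)
    (h : ∀ i, PT (F i)) : PT (fun a => l.flatMap fun i => F i a) := by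
  induction l with
  | nil => exact PT.const []
  | cons i l ih => exact PT.append (h i) ih

theorem PT.flatRange {β : Type*} [Rep β] {n : α → ℕ} (hn : PT n) {F : α → ℕ → List β}
    (h : PT (fun p : α × ℕ => F p.1 p.2)) :
    PT (fun a => (List.range (n a)).flatMap fun i => F a i) :=
  PT.flatMap (PT.range hn) h

variable [DecidableEq K] [DecidableEq G]

theorem pt_cTop {N H : α → ℕ} (hN : PT N) (hH : PT H) :
    PT (fun a => (cTop (N a) (H a) : List (Cls Q K G))) := by
  refine PT.append (PT.flatConst _ fun k => PT.flatRange hN ?_)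
    (PT.flatConst _ fun k => PT.flatConst _ fun g => PT.flatRange hN (PT.flatRange ?_ ?_))
  · exact PT.single (pt_i1 (pt_hgt PT.id.snd k (PT.const 0)) (pt_top PT.id.snd k none))
  · exact PT.comp (f := Prod.fst) hH PT.id.fst
  · exact PT.single (pt_i2 (pt_hgt PT.id.fst.snd k PT.id.snd.succ)
      (pt_cell PT.id.fst.snd k PT.id.snd g) (pt_top PT.id.fst.snd k (some g)))

theorem pt_newh {j : α → ℕ} (hj : PT j) (a : Option (Option G)) :
    PT (fun x => newh a (j x)) := by
  rcases a with _ | _ | g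
  · exact hj
  · exact PT.pred hj
  · exact PT.succ hj

variable [DecidableEq Q]

theorem pt_cRul (M : Mach Q K G) {N H : α → ℕ} (hN : PT N) (hH : PT H) :
    PT (fun a => cRul M (N a) (H a)) := by
  have hH' : PT (fun p : α × ℕ => H p.1) := PT.comp (f := Prod.fst) hH PT.id.fst
  refine PT.append (PT.append (PT.append
    (PT.flatConst _ fun q => PT.flatConst _ fun o => PT.flatRange hN ?_)
    (PT.flatConst _ fun q => PT.flatConst _ fun o => PT.flatRange hN ?_))
    (PT.flatConst _ fun q => PT.flatConst _ fun o => PT.flatRange hN (PT.flatRange hH' ?_)))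
    (PT.flatConst _ fun q => PT.flatConst _ fun o => PT.flatConst _ fun g => ?_)
  · exact PT.single (pt_i2 (pt_ctl PT.id.snd q) (pt_top PT.id.snd _ o)
      (pt_rul PT.id.snd q o))
  · exact PT.single (pt_i1 (pt_rul PT.id.snd q o) (pt_ctl PT.id.snd.succ _))
  · exact PT.single (pt_i2 (pt_rul PT.id.fst.snd q o) (pt_hgt PT.id.fst.snd _ PT.id.snd)
      (pt_hgt PT.id.fst.snd.succ _ (pt_newh PT.id.snd _)))
  · by_cases h : M.act q o = some (some g)
    · simp only [if_pos h]
      exact PT.flatRange hN (PT.flatRange hH' (PT.single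
        (pt_i2 (pt_rul PT.id.fst.snd q o) (pt_hgt PT.id.fst.snd _ PT.id.snd)
        (pt_cell PT.id.fst.snd.succ _ PT.id.snd g))))
    · simp only [if_neg h]
      exact PT.const []

theorem pt_cFix (M : Mach Q K G) {N H : α → ℕ} (hN : PT N) (hH : PT H) :
    PT (fun a => cFix M (N a) (H a)) := by
  have hH' : PT (fun p : α × ℕ => H p.1) := PT.comp (f := Prod.fst) hH PT.id.fst
  refine PT.append (PT.flatConst _ fun q => PT.flatConst _ fun k => ?_)
    (PT.flatConst _ fun k => PT.flatConst _ fun g => PT.flatRange hN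
      (PT.flatRange hH' (PT.flatRange PT.id.snd ?_)))
  · by_cases h : k = M.stk q
    · simp only [if_pos h]
      exact PT.const []
    · simp only [if_neg h]
      exact PT.flatRange hN (PT.flatRange hH' (PT.single
        (pt_i2 (pt_ctl PT.id.fst.snd q) (pt_hgt PT.id.fst.snd k PT.id.snd)
        (pt_hgt PT.id.fst.snd.succ k PT.id.snd))))
  · exact PT.single (pt_i2 (pt_hgt PT.id.fst.fst.snd k PT.id.fst.snd)
      (pt_cell PT.id.fst.fst.snd k PT.id.snd g)
      (pt_cell PT.id.fst.fst.snd.succ k PT.id.snd g))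

theorem pt_cIni (A : Tab Q K G) {P : α → ℕ} (hP : PT P)
    {T : α → ℕ → List (ℕ × (Bool × Bool))} (hT : PT (fun p : α × ℕ => T p.1 p.2)) :
    PT (fun a => cIni A (P a) (T a)) := by
  have hP1 : PT (fun a => P a + 1) := hP.succ
  have hz : PT (fun p : α × ℕ => (T p.1 p.2).zipIdx) := PT.zipIdx hT
  refine PT.append (PT.append (PT.append (PT.append (PT.append (PT.append (PT.append
    (PT.const _) (PT.flatConst _ fun k => ?_)) (PT.flatRange hP1 ?_))
    (PT.flatRange hP1 (PT.flatMap hz ?_))) (PT.flatRange hP1 (PT.flatMap hz ?_)))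
    (PT.const _)) (PT.flatRange hP1 ?_)) ?_
  · exact PT.const _
  · exact PT.single (pt_i1 (pt_len PT.id.snd) (pt_hgt (PT.const 0) _ (PT.length hT)))
  · exact PT.single (pt_i2 (pt_len PT.id.fst.snd) (pt_bit PT.id.snd.fst.fst)
      (pt_cell' (PT.const 0) _ PT.id.snd.snd A.gs PT.id.snd.fst.snd.snd))
  · exact PT.single (pt_i3 (pt_len PT.id.fst.snd) (pt_bit PT.id.snd.fst.fst)
      (pt_cell' (PT.const 0) _ PT.id.snd.snd A.gs PT.id.snd.fst.snd.fst))
  · exact PT.single (pt_i3 (pt_chn PT.id.snd) (pt_len PT.id.snd) (pt_chn PT.id.snd.succ))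
  · exact PT.single (pt_nc (pt_chn hP1))

/-- The tableau, with numbers as variables, is computable in polynomial time. -/
theorem pt_tableau (A : Tab Q K G) {N H P : α → ℕ} (hN : PT N) (hH : PT H) (hP : PT P)
    {T : α → ℕ → List (ℕ × (Bool × Bool))} (hT : PT (fun p : α × ℕ => T p.1 p.2)) :
    PT (fun a => toCNF (tableau A (N a) (H a) (P a) (T a))) := by
  have h : PT (fun a => tableau A (N a) (H a) (P a) (T a)) :=
    PT.append (PT.append (PT.append (PT.append (pt_cTop hN hH) (pt_cRul A.M hN hH))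
      (pt_cFix A.M hN hH)) (pt_cIni A hP hT))
      (PT.single (pt_i4 (pt_hgt hN _ (PT.const 1)) (pt_cell hN _ (PT.const 0) _)))
  have hn : PT (fun f : Fact Q K G => num f) := PT.id (α := Fact Q K G)
  have hl : PT (fun f : FLit Q K G => numL f) := PT.pair
    (PT.comp (g := fun f : Fact Q K G => num f) (f := fun p : FLit Q K G => p.1) hn PT.id.fst)
    PT.id.snd
  refine PT.map h ?_
  refine PT.pair ?_ (PT.pair ?_ ?_)
  · exact PT.comp (g := fun f : FLit Q K G => numL f)
      (f := fun p : α × Cls Q K G => p.2.1) hl PT.id.snd.fst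
  · exact PT.comp (g := fun f : FLit Q K G => numL f)
      (f := fun p : α × Cls Q K G => p.2.2.1) hl PT.id.snd.snd.fst
  · exact PT.comp (g := fun f : FLit Q K G => numL f)
      (f := fun p : α × Cls Q K G => p.2.2.2) hl PT.id.snd.snd.snd

end Pool.Agent.CookLevin
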